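import Pool.Agent.TH266.BW.Op

/-!
# The invariant subspaces of Halmos' bilateral weighted shift (MP_1e8505_an, Q2)

Let `(e n)`, `n ∈ ℤ`, be an orthonormal basis of a complex Hilbert space and `W e n = 2 ^ (-|n|) e (n + 1)`.
The closed invariant subspaces of `W` are `0`, the whole space and the closed spans of `{e n : n ≥ k}`.

Idea of the proof. If `f` is in the invariant subspace and `g` is orthogonal to it, then two sequences
`c`, `d` made of the coefficients of `f` and `g` satisfy `|c (-j)|, |d (-j)| ≤ A 2 ^ (-j(j-1)/2)`,
`|c j|, |d j| ≤ A 2 ^ (j(j+1)/2)`, and the convolution of `c` and `d` vanishes at all integers `≤ 0`. Put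
`F(z) = ∑ c (-j) z ^ j`, `G(z) = ∑ d (-j) z ^ j`. The convolution equations say that the coefficients of
`F G` are so small that the length of `F G` on the circle of radius `r = 2 ^ n` is at most polynomial in `n`
times the sum of the lengths of `F` and of `G`. By an inequality of Gelfond type (multiplicativity of the
Mahler measure) it is at least `2 ^ (-16 n)` times their product, which is impossible for large `n` if both
series have a non-zero coefficient of index `≥ 17`. The rest is elementary.
-/

set_option autoImplicit false

namespace Pool.Agent.Results.MP_1e8505_an.HalmosShift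

/-- `W` is the bilateral weighted shift with weights `2 ^ (-|n|)` with respect to the orthonormal basis
`(e n)`, `n ∈ ℤ`: `W e n = 2 ^ (-|n|) e (n + 1)` for all integers `n`. -/
def IsHalmosShift {H : Type*} [NormedAddCommGroup H] [InnerProductSpace ℂ H]
    (e : HilbertBasis ℤ ℂ H) (W : H →L[ℂ] H) : Prop :=
  ∀ n : ℤ, W (e n) = ((2 : ℂ) ^ n.natAbs)⁻¹ • e (n + 1)

/-- For every complex Hilbert space with an orthonormal basis `(e n)`, `n ∈ ℤ`: the bounded operator `W`
with `W e n = 2 ^ (-|n|) e (n + 1)` exists, and a subspace is closed and invariant under `W` if and only if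
it is `0`, the whole space, or the closed span of `{e n : n ≥ k}` for some integer `k`. -/
theorem result (H : Type*) [NormedAddCommGroup H] [InnerProductSpace ℂ H] [CompleteSpace H]
    (e : HilbertBasis ℤ ℂ H) :
    (∃ W : H →L[ℂ] H, IsHalmosShift e W) ∧
    ∀ W : H →L[ℂ] H, IsHalmosShift e W → ∀ M : Submodule ℂ H,
      (IsClosed (M : Set H) ∧ ∀ x ∈ M, W x ∈ M) ↔
        (M = ⊥ ∨ M = ⊤ ∨
          ∃ k : ℤ, M = (Submodule.span ℂ ((e : ℤ → H) '' Set.Ici k)).topologicalClosure) :=
  ⟨Pool.Agent.TH266.BW.exists_shift e, fun _ hW M => Pool.Agent.TH266.BW.main hW M⟩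

end Pool.Agent.Results.MP_1e8505_an.HalmosShift
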